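import Mathlib
import Pool.Agent.H32.B4.Count
import Pool.Agent.H30.Vino.Divisor

/-!
# `C(a,4) - C(b,4) = c^4`: the number of solutions (`MP_76dfaf_nt`)

With `s = a - b`, `t = a + b - 3` and `u = s^2 + t^2 - 5` the equation is `s t u = 48 c^4`. One of
`s`, `t`, `u` divides the fourth power of a number of size at most `7 X^(2/3)`; for a given value of
`s`, `t` or `u` the other two are counted by equations of Pell type.
-/

set_option autoImplicit false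

open Finset Pool.Agent.H32.B4

namespace Pool.Agent.Results.MP_76dfaf_nt.CountingBound

/-- `24 C(n,4)` -/
theorem choose_four (n : ℕ) :
    24 * (n.choose 4 : ℤ) = (n : ℤ) * (n - 1) * (n - 2) * (n - 3) := by
  rcases Nat.lt_or_ge n 4 with h | h
  · interval_cases n <;> simp [Nat.choose]
  · obtain ⟨m, rfl⟩ := Nat.exists_eq_add_of_le' h
    have h1 := Nat.descFactorial_eq_factorial_mul_choose (m + 4) 4
    have h2 : (m + 4).descFactorial 4 = (m + 4) * (m + 3) * (m + 2) * (m + 1) := by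
      simp only [Nat.descFactorial]
      rw [show m + 4 - 3 = m + 1 by omega, show m + 4 - 2 = m + 2 by omega,
        show m + 4 - 1 = m + 3 by omega, show m + 4 - 0 = m + 4 by omega]
      ring
    rw [h2, show Nat.factorial 4 = 24 by decide] at h1
    have h3 : (((m + 4) * (m + 3) * (m + 2) * (m + 1) : ℕ) : ℤ) =
        ((24 * (m + 4).choose 4 : ℕ) : ℤ) := by exact_mod_cast h1
    push_cast at h3 ⊢
    linear_combination -h3

/-- from the equation to the product -/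
theorem to_sol (X a b c : ℕ) (hb : 4 ≤ b) (hba : b < a) (haX : a ≤ X) (hc : 1 ≤ c)
    (h : (a.choose 4 : ℤ) - b.choose 4 = (c : ℤ) ^ 4) :
    ∃ u, Sol X (a - b) (a + b - 3) u c := by
  obtain ⟨s, hs⟩ : ∃ s, a = b + s := ⟨a - b, by omega⟩
  obtain ⟨t, ht⟩ : ∃ t, a + b = t + 3 := ⟨a + b - 3, by omega⟩
  have e1 : a - b = s := by omega
  have e2 : a + b - 3 = t := by omega
  rw [e1, e2]
  have hs1 : 1 ≤ s := by omega
  have ht6 : 6 ≤ t := by omega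
  obtain ⟨u, hu⟩ : ∃ u, s ^ 2 + t ^ 2 = u + 5 := ⟨s ^ 2 + t ^ 2 - 5, by
    have : 36 ≤ t ^ 2 := by nlinarith
    omega⟩
  refine ⟨u, hs1, by omega, ?_, hc, by omega, by omega, ?_, hu, ?_, ?_⟩
  · have : 36 ≤ t ^ 2 := by nlinarith
    omega
  · rw [← hu]
    have h1 : s ≤ X := by omega
    have h2 : t ≤ 2 * X := by omega
    nlinarith
  · have h1 := choose_four a
    have h2 := choose_four b
    have h3 : (a : ℤ) = b + s := by exact_mod_cast hs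
    have h4 : (a : ℤ) + b = t + 3 := by exact_mod_cast ht
    have h5 : (s : ℤ) ^ 2 + (t : ℤ) ^ 2 = u + 5 := by exact_mod_cast hu
    have hsz : (s : ℤ) = a - b := by linarith
    have htz : (t : ℤ) = a + b - 3 := by linarith
    have huz : (u : ℤ) = (a - b) ^ 2 + (a + b - 3) ^ 2 - 5 := by rw [← hsz, ← htz]; linarith
    have h6 : (s : ℤ) * t * u = 48 * (c : ℤ) ^ 4 := by
      rw [hsz, htz, huz, ← h]
      linear_combination (-2) * h1 + 2 * h2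
    exact_mod_cast h6
  · have h1 : c ^ 4 ≤ a.choose 4 := by
      have : (c : ℤ) ^ 4 ≤ (a.choose 4 : ℤ) := by
        have : (0 : ℤ) ≤ (b.choose 4 : ℤ) := by positivity
        linarith
      exact_mod_cast this
    have h2 := Nat.descFactorial_eq_factorial_mul_choose a 4
    have h3 := Nat.descFactorial_le_pow a 4
    rw [h2, show Nat.factorial 4 = 24 by decide] at h3
    have h4 := Nat.pow_le_pow_left haX 4
    omega

/-- the divisor bound with real exponents -/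
theorem div_bound (k : ℕ) (hk : 0 < k) : ∃ C : ℝ, 1 ≤ C ∧ ∀ n : ℕ, 1 ≤ n →
    (n.divisors.card : ℝ) ≤ (C * n) ^ (1 / (k : ℝ)) := by
  obtain ⟨C, hC, h⟩ := Pool.Agent.H30.Vino.card_divisors_pow_le k
  refine ⟨C, by exact_mod_cast hC, ?_⟩
  intro n hn
  have h1 : ((n.divisors.card : ℝ)) ^ k ≤ (C : ℝ) * n := by exact_mod_cast h n hn
  have hk0 : (k : ℝ) ≠ 0 := by exact_mod_cast hk.ne'
  have h2 : (n.divisors.card : ℝ) = (((n.divisors.card : ℝ)) ^ k) ^ (1 / (k : ℝ)) := by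
    rw [← Real.rpow_natCast, ← Real.rpow_mul (Nat.cast_nonneg _), mul_one_div_cancel hk0, Real.rpow_one]
  rw [h2]
  exact Real.rpow_le_rpow (pow_nonneg (Nat.cast_nonneg _) _) h1 (one_div_nonneg.mpr (Nat.cast_nonneg _))

/-- the logarithm -/
theorem log_bound (δ : ℝ) (hδ : 0 < δ) : ∃ C : ℝ, 0 < C ∧ ∀ X : ℕ, 1 ≤ X →
    ((Nat.log 2 (6 * X) + 1 : ℕ) : ℝ) ≤ C * (X : ℝ) ^ δ := by
  refine ⟨2 * (6 : ℝ) ^ δ / δ + 1, by positivity, ?_⟩
  intro X hX
  have hX0 : (0 : ℝ) < X := by exact_mod_cast hX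
  have hX1 : (1 : ℝ) ≤ X := by exact_mod_cast hX
  have h1 : (2 : ℝ) ^ Nat.log 2 (6 * X) ≤ 6 * X := by
    exact_mod_cast Nat.pow_log_le_self 2 (by omega)
  have h2 : (Nat.log 2 (6 * X) : ℝ) * Real.log 2 ≤ Real.log (6 * X) := by
    rw [← Real.log_pow]
    exact Real.log_le_log (by positivity) h1
  have h3 : Real.log (6 * X) ≤ (6 * X) ^ δ / δ := Real.log_le_rpow_div (by positivity) hδ
  have h4 : (1 / 2 : ℝ) ≤ Real.log 2 := by
    have := Real.log_two_gt_d9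
    linarith
  have h5 : (0 : ℝ) ≤ Nat.log 2 (6 * X) := Nat.cast_nonneg _
  have h6 : (1 : ℝ) ≤ (X : ℝ) ^ δ := Real.one_le_rpow hX1 hδ.le
  have h7 : (6 * (X : ℝ)) ^ δ = (6 : ℝ) ^ δ * (X : ℝ) ^ δ := Real.mul_rpow (by norm_num) hX0.le
  rw [h7] at h3
  have h8 : (Nat.log 2 (6 * X) : ℝ) ≤ 2 * ((6 : ℝ) ^ δ * (X : ℝ) ^ δ / δ) := by nlinarith
  push_cast
  calc (Nat.log 2 (6 * X) : ℝ) + 1 ≤ 2 * ((6 : ℝ) ^ δ * (X : ℝ) ^ δ / δ) + (X : ℝ) ^ δ := by linarith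
    _ = _ := by ring

/-- For every `ε > 0` the number of solutions of `C(a,4) - C(b,4) = c^4` with `4 ≤ b < a ≤ X` and
`c ≥ 1` is at most `C X^(2/3 + ε)`, where `C` depends only on `ε`. -/
theorem result : ∀ ε : ℝ, 0 < ε → ∃ C : ℝ, ∀ X : ℕ, 1 ≤ X →
    (({p : ℕ × ℕ | 4 ≤ p.2 ∧ p.2 < p.1 ∧ p.1 ≤ X ∧
      ∃ c : ℕ, 1 ≤ c ∧ (p.1.choose 4 : ℤ) - p.2.choose 4 = (c : ℤ) ^ 4}.ncard : ℕ) : ℝ) ≤
      C * (X : ℝ) ^ (2 / 3 + ε) := by
  classical
  intro ε hε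
  obtain ⟨k, hk⟩ := exists_nat_gt (24 / ε)
  have hk0 : (0 : ℝ) < k := lt_trans (by positivity) hk
  have hkn : 0 < k := by exact_mod_cast hk0
  obtain ⟨C1, hC1, hdiv⟩ := div_bound k hkn
  obtain ⟨C2, hC2, hlog⟩ := log_bound (ε / 2) (by positivity)
  refine ⟨21 * ((C1 * 2401) ^ (1 / (k : ℝ))) ^ 4 * C2, ?_⟩
  intro X hX
  have hX0 : (0 : ℝ) < X := by exact_mod_cast hX
  have hX1 : (1 : ℝ) ≤ X := by exact_mod_cast hX
  set E : Set (ℕ × ℕ) := {p : ℕ × ℕ | 4 ≤ p.2 ∧ p.2 < p.1 ∧ p.1 ≤ X ∧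
      ∃ c : ℕ, 1 ≤ c ∧ (p.1.choose 4 : ℤ) - p.2.choose 4 = (c : ℤ) ^ 4} with hE
  have hfin : E.Finite := by
    refine (Finset.finite_toSet (Icc 1 X ×ˢ Icc 1 X)).subset ?_
    intro p hp
    obtain ⟨h1, h2, h3, -⟩ := hp
    rw [Finset.mem_coe, mem_product, mem_Icc, mem_Icc]
    omega
  rw [Set.ncard_eq_toFinset_card E hfin]
  set F := hfin.toFinset with hF
  have hFm : ∀ p ∈ F, p ∈ E := fun p hp => hfin.mem_toFinset.mp hp
  -- the map
  have hcard : F.card = (F.image fun p : ℕ × ℕ => (p.1 - p.2, p.1 + p.2 - 3)).card := by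
    rw [card_image_of_injOn]
    intro p hp q hq hpq
    obtain ⟨h1, h2, h3, -⟩ := hFm p hp
    obtain ⟨g1, g2, g3, -⟩ := hFm q hq
    rw [Prod.mk.injEq] at hpq
    apply Prod.ext <;> omega
  -- parameters
  set y : ℝ := (X : ℝ) ^ (2 / 3 : ℝ) with hy
  have hy0 : 0 < y := Real.rpow_pos_of_pos hX0 _
  have hy3 : y ^ 3 = (X : ℝ) ^ 2 := by
    rw [hy, ← Real.rpow_natCast, ← Real.rpow_mul hX0.le]
    norm_num
  have hyX : y ≤ X := by
    have := Real.rpow_le_rpow_of_exponent_le hX1 (show (2 / 3 : ℝ) ≤ 1 by norm_num)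
    rwa [Real.rpow_one] at this
  set R := ⌊7 * y⌋₊ with hR
  have hR1 : (R : ℝ) ≤ 7 * y := Nat.floor_le (by positivity)
  have hR2 : 7 * y < R + 1 := Nat.lt_floor_add_one _
  have hRa : 233 * X ^ 2 < (R + 1) ^ 3 := by
    have h1 : (7 * y) ^ 3 < ((R : ℝ) + 1) ^ 3 := pow_lt_pow_left₀ hR2 (by positivity) (by norm_num)
    have h2 : (7 * y) ^ 3 = 343 * (X : ℝ) ^ 2 := by rw [mul_pow, hy3]; norm_num
    have h3 : (233 : ℝ) * (X : ℝ) ^ 2 < ((R : ℝ) + 1) ^ 3 := by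
      rw [h2] at h1
      have : 0 < (X : ℝ) ^ 2 := by positivity
      linarith
    exact_mod_cast h3
  have hRb : R ^ 4 ≤ 2401 * X ^ 3 := by
    have h1 : (R : ℝ) ^ 4 ≤ (7 * y) ^ 4 := pow_le_pow_left₀ (Nat.cast_nonneg _) hR1 4
    have h2 : (7 * y) ^ 4 = 2401 * (y ^ 3 * y) := by ring
    have h3 : (R : ℝ) ^ 4 ≤ 2401 * (X : ℝ) ^ 3 := by
      refine h1.trans ?_
      rw [h2, hy3]
      have : (X : ℝ) ^ 2 * y ≤ (X : ℝ) ^ 2 * X := mul_le_mul_of_nonneg_left hyX (by positivity)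
      have e : (X : ℝ) ^ 2 * X = (X : ℝ) ^ 3 := by ring
      linarith
    exact_mod_cast h3
  set Dr : ℝ := (C1 * (2401 * (X : ℝ) ^ 3)) ^ (1 / (k : ℝ)) with hDr
  have hDr0 : 0 ≤ Dr := Real.rpow_nonneg (by positivity) _
  set D := ⌊Dr⌋₊ with hD
  have hDle : (D : ℝ) ≤ Dr := Nat.floor_le hDr0
  have hDd : ∀ n, 1 ≤ n → n ≤ 2401 * X ^ 3 → n.divisors.card ≤ D := by
    intro n hn hnM
    apply Nat.le_floor
    refine (hdiv n hn).trans ?_
    apply Real.rpow_le_rpow (by positivity) _ (by positivity)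
    apply mul_le_mul_of_nonneg_left _ (by linarith)
    exact_mod_cast hnM
  have htot := total X R D hX hRa hRb hDd (F.image fun p : ℕ × ℕ => (p.1 - p.2, p.1 + p.2 - 3)) (by
    intro a ha
    rw [mem_image] at ha
    obtain ⟨p, hp, rfl⟩ := ha
    obtain ⟨h1, h2, h3, c, hc, h4⟩ := hFm p hp
    obtain ⟨u, hu⟩ := to_sol X p.1 p.2 c h1 h2 h3 hc h4
    exact ⟨u, c, hu⟩)
  rw [← hcard] at htot
  have htotR : (F.card : ℝ) ≤ 3 * R * (D : ℝ) ^ 4 * ((Nat.log 2 (6 * X) + 1 : ℕ) : ℝ) := by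
    exact_mod_cast htot
  refine htotR.trans ?_
  -- size of `D`
  have hD4 : (D : ℝ) ^ 4 ≤ ((C1 * 2401) ^ (1 / (k : ℝ))) ^ 4 * (X : ℝ) ^ (ε / 2) := by
    have h1 : (D : ℝ) ^ 4 ≤ Dr ^ 4 := pow_le_pow_left₀ (Nat.cast_nonneg _) hDle 4
    have h2 : Dr = (C1 * 2401) ^ (1 / (k : ℝ)) * (X : ℝ) ^ (3 / (k : ℝ)) := by
      rw [hDr, ← mul_assoc, Real.mul_rpow (by positivity) (by positivity), ← Real.rpow_natCast (X : ℝ) 3,
        ← Real.rpow_mul hX0.le]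
      congr 2
      push_cast
      ring
    have h3 : ((X : ℝ) ^ (3 / (k : ℝ))) ^ 4 = (X : ℝ) ^ (12 / (k : ℝ)) := by
      rw [← Real.rpow_natCast _ 4, ← Real.rpow_mul hX0.le]
      congr 1
      push_cast
      ring
    have h4 : (X : ℝ) ^ (12 / (k : ℝ)) ≤ (X : ℝ) ^ (ε / 2) := by
      apply Real.rpow_le_rpow_of_exponent_le hX1
      rw [div_lt_iff₀ hε] at hk
      rw [div_le_div_iff₀ hk0 (by norm_num)]
      linarith
    refine h1.trans ?_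
    rw [h2, mul_pow, h3]
    exact mul_le_mul_of_nonneg_left h4 (by positivity)
  have hL := hlog X hX
  have hL0 : (0 : ℝ) ≤ ((Nat.log 2 (6 * X) + 1 : ℕ) : ℝ) := Nat.cast_nonneg _
  have hfinal : (X : ℝ) ^ (2 / 3 + ε) = y * ((X : ℝ) ^ (ε / 2) * (X : ℝ) ^ (ε / 2)) := by
    rw [hy, ← Real.rpow_add hX0, ← Real.rpow_add hX0]
    congr 1
    ring
  rw [hfinal]
  have hA : 3 * (R : ℝ) ≤ 21 * y := by linarith
  calc 3 * (R : ℝ) * (D : ℝ) ^ 4 * ((Nat.log 2 (6 * X) + 1 : ℕ) : ℝ) ≤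
        (21 * y) * (((C1 * 2401) ^ (1 / (k : ℝ))) ^ 4 * (X : ℝ) ^ (ε / 2)) * (C2 * (X : ℝ) ^ (ε / 2)) := by
        apply mul_le_mul _ hL hL0 (by positivity)
        exact mul_le_mul hA hD4 (by positivity) (by positivity)
    _ = _ := by ring

end Pool.Agent.Results.MP_76dfaf_nt.CountingBound
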