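import Mathlib

/-!
# `C(a,4) - C(b,4) = c^4`: a reciprocity condition (`MP_76dfaf_nt`)

With `s = a - b`, `t = a + b - 3` and `u = s^2 + t^2 - 5` the equation is `s t u = 48 c^4`, and
`s + t` is odd.
-/

set_option autoImplicit false

open Finset

namespace Pool.Agent.Results.MP_76dfaf_nt.Reciprocity

/-- `24 C(n,4)` -/
theorem choose_four (n : ℕ) :
    24 * (n.choose 4 : ℤ) = (n : ℤ) * (n - 1) * (n - 2) * (n - 3) := by
  rcases Nat.lt_or_ge n 4 with h | h
  · interval_cases n <;> simp [Nat.choose]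
  · obtain ⟨m, rfl⟩ := Nat.exists_eq_add_of_le' h
    have h1 := Nat.descFactorial_eq_factorial_mul_choose (m + 4) 4
    have h2 : (m + 4).descFactorial 4 = (m + 4) * (m + 3) * (m + 2) * (m + 1) := by
      simp only [Nat.descFactorial]
      rw [show m + 4 - 3 = m + 1 by omega, show m + 4 - 2 = m + 2 by omega,
        show m + 4 - 1 = m + 3 by omega, show m + 4 - 0 = m + 4 by omega]
      ring
    rw [h2, show Nat.factorial 4 = 24 by decide] at h1
    have h3 : (((m + 4) * (m + 3) * (m + 2) * (m + 1) : ℕ) : ℤ) =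
        ((24 * (m + 4).choose 4 : ℕ) : ℤ) := by exact_mod_cast h1
    push_cast at h3 ⊢
    linear_combination -h3

theorem fac_eq {p n k m : ℕ} (hp : p.Prime) (hn : n = p ^ k * m) (hm : ¬ p ∣ m) :
    n.factorization p = k := by
  have hm0 : m ≠ 0 := by
    rintro rfl
    exact hm (dvd_zero p)
  rw [hn, Nat.factorization_mul (pow_ne_zero _ hp.ne_zero) hm0, hp.factorization_pow]
  simp [Nat.factorization_eq_zero_of_not_dvd hm]

/-- the square of a number modulo 5 in terms of its factorization -/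
theorem sq_mod_five (n : ℕ) (hn : n ≠ 0) (h5 : ¬ 5 ∣ n)
    (h : ∀ p : ℕ, p.Prime → 7 ≤ p → (p % 5 = 2 ∨ p % 5 = 3) → Even (n.factorization p)) :
    ((n : ZMod 5)) ^ 2 = (-1) ^ (n.factorization 2 + n.factorization 3) := by
  set f : ℕ → ZMod 5 := fun p => ((p : ZMod 5) ^ 2) ^ n.factorization p with hf
  have h1 : ((n : ZMod 5)) ^ 2 = ∏ p ∈ n.primeFactors, f p := by
    conv_lhs => rw [← Nat.prod_factorization_pow_eq_self hn]
    rw [Finsupp.prod, Nat.support_factorization, Nat.cast_prod, ← Finset.prod_pow]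
    refine Finset.prod_congr rfl fun p _ => ?_
    rw [hf]
    push_cast
    rw [← pow_mul, ← pow_mul, mul_comm]
  have hone : ∀ p, p.Prime → p ≠ 2 → p ≠ 3 → f p = 1 := by
    intro p hp hp2 hp3
    by_cases hp5 : p = 5
    · subst hp5
      simp [hf, Nat.factorization_eq_zero_of_not_dvd h5]
    · have hp7 : 7 ≤ p := by
        have h2 := hp.two_le
        have h4 : p ≠ 4 := by
          rintro rfl
          exact absurd hp (by decide)
        have h6 : p ≠ 6 := by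
          rintro rfl
          exact absurd hp (by decide)
        omega
      have hm0 : p % 5 ≠ 0 := fun h0 => hp5
        ((Nat.prime_dvd_prime_iff_eq Nat.prime_five hp).mp (Nat.dvd_of_mod_eq_zero h0)).symm
      have hcast : (p : ZMod 5) = ((p % 5 : ℕ) : ZMod 5) := by
        rw [ZMod.natCast_mod]
      have hlt : p % 5 < 5 := Nat.mod_lt _ (by norm_num)
      by_cases h23 : p % 5 = 2 ∨ p % 5 = 3
      · obtain ⟨k, hk⟩ := h p hp hp7 h23
        rw [hf]
        simp only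
        rw [hk, ← two_mul, pow_mul, hcast]
        rcases h23 with h23 | h23 <;> rw [h23]
        · rw [show ((((2 : ℕ) : ZMod 5)) ^ 2) ^ 2 = 1 by decide, one_pow]
        · rw [show ((((3 : ℕ) : ZMod 5)) ^ 2) ^ 2 = 1 by decide, one_pow]
      · have h14 : p % 5 = 1 ∨ p % 5 = 4 := by omega
        rw [hf]
        simp only
        rw [hcast]
        rcases h14 with h14 | h14 <;> rw [h14]
        · rw [show (((1 : ℕ) : ZMod 5)) ^ 2 = 1 by decide, one_pow]
        · rw [show (((4 : ℕ) : ZMod 5)) ^ 2 = 1 by decide, one_pow]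
  have h2 : ∏ p ∈ n.primeFactors, f p = ∏ p ∈ n.primeFactors ∪ {2, 3}, f p := by
    refine Finset.prod_subset Finset.subset_union_left fun p _ hp => ?_
    rw [← Nat.support_factorization, Finsupp.notMem_support_iff] at hp
    simp [hf, hp]
  have h3 : ∏ p ∈ n.primeFactors ∪ {2, 3}, f p = ∏ p ∈ ({2, 3} : Finset ℕ), f p := by
    symm
    refine Finset.prod_subset Finset.subset_union_right fun p hp hp' => ?_
    rw [Finset.mem_union] at hp
    have hpp : p.Prime := Nat.prime_of_mem_primeFactors (hp.resolve_right hp')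
    simp only [Finset.mem_insert, Finset.mem_singleton, not_or] at hp'
    exact hone p hpp hp'.1 hp'.2
  rw [h1, h2, h3, Finset.prod_pair (by norm_num), pow_add]
  rw [hf]
  simp only
  rw [show (((2 : ℕ) : ZMod 5)) ^ 2 = -1 by decide, show (((3 : ℕ) : ZMod 5)) ^ 2 = -1 by decide]

theorem not_sq_two : ¬ IsSquare (((2 : ℕ)) : ZMod 5) := by decide

theorem not_sq_three : ¬ IsSquare (((3 : ℕ)) : ZMod 5) := by decide

/-- a prime `p ≡ ±2 (mod 5)` does not divide both a side and `u` -/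
theorem inert (p x y u : ℕ) (hp : p.Prime) (hp7 : 7 ≤ p) (h23 : p % 5 = 2 ∨ p % 5 = 3)
    (hu : x ^ 2 + y ^ 2 = u + 5) (hx : p ∣ x) (hpu : p ∣ u) : False := by
  have : Fact p.Prime := ⟨hp⟩
  have : Fact (Nat.Prime 5) := ⟨Nat.prime_five⟩
  have h1 : ((y : ZMod p)) ^ 2 = 5 := by
    have h2 : (((x ^ 2 + y ^ 2 : ℕ)) : ZMod p) = (((u + 5 : ℕ)) : ZMod p) := by rw [hu]
    push_cast at h2
    rw [(ZMod.natCast_eq_zero_iff x p).mpr hx, (ZMod.natCast_eq_zero_iff u p).mpr hpu] at h2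
    simpa using h2
  have h3 : IsSquare (((5 : ℕ)) : ZMod p) := ⟨(y : ZMod p), by rw [← sq, h1]; norm_num⟩
  have h4 := (ZMod.exists_sq_eq_prime_iff_of_mod_four_eq_one (p := 5) (q := p) (by norm_num)
    (by omega)).mpr h3
  have hcast : (p : ZMod 5) = ((p % 5 : ℕ) : ZMod 5) := by
    rw [ZMod.natCast_mod]
  rw [hcast] at h4
  rcases h23 with h | h <;> rw [h] at h4
  · exact not_sq_two h4
  · exact not_sq_three h4

theorem two_adic (x y u : ℕ) (hx : 4 ∣ x) (hy : y % 2 = 1) (hu : x ^ 2 + y ^ 2 = u + 5) :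
    u.factorization 2 = 2 := by
  obtain ⟨k, rfl⟩ := hx
  obtain ⟨j, rfl⟩ : ∃ j, y = 2 * j + 1 := ⟨y / 2, by omega⟩
  have hj : Even (j * (j + 1)) := Nat.even_mul_succ_self j
  obtain ⟨i, hi⟩ := hj
  have h1 : u + 5 = 16 * k ^ 2 + 4 * (j * (j + 1)) + 1 := by rw [← hu]; ring
  have h2 : u = 2 ^ 2 * (4 * k ^ 2 + (i + i) - 1) := by
    rw [hi] at h1
    have : 1 ≤ 4 * k ^ 2 + (i + i) := by omega
    omega
  refine fac_eq Nat.prime_two h2 ?_
  rw [hi] at h1
  omega

theorem core (s t u c : ℕ) (hs : 1 ≤ s) (ht : 1 ≤ t) (hc : 1 ≤ c) (hodd : (s + t) % 2 = 1)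
    (hu : s ^ 2 + t ^ 2 = u + 5) (h : s * t * u = 48 * c ^ 4) :
    (s * t % 5 = 1 ∨ s * t % 5 = 4) ↔ Xor (3 ∣ s * t) (4 ∣ s * t) := by
  have hP0 : s * t ≠ 0 := by positivity
  have hc0 : c ≠ 0 := by omega
  have hu0 : u ≠ 0 := by
    rintro rfl
    have : 0 < 48 * c ^ 4 := by positivity
    omega
  have hfac : ∀ p, (s * t).factorization p + u.factorization p =
      (48 : ℕ).factorization p + 4 * c.factorization p := by
    intro p
    have h1 : (s * t * u).factorization p = (48 * c ^ 4).factorization p := by rw [h]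
    rw [Nat.factorization_mul hP0 hu0, Nat.factorization_mul (by norm_num) (pow_ne_zero _ hc0),
      Nat.factorization_pow] at h1
    simpa using h1
  have h48_2 : (48 : ℕ).factorization 2 = 4 :=
    fac_eq Nat.prime_two (show 48 = 2 ^ 4 * 3 by norm_num) (by norm_num)
  have h48_3 : (48 : ℕ).factorization 3 = 1 :=
    fac_eq Nat.prime_three (show 48 = 3 ^ 1 * 16 by norm_num) (by norm_num)
  have hf2 := hfac 2
  have hf3 := hfac 3
  rw [h48_2] at hf2
  rw [h48_3] at hf3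
  -- the inert primes
  have hin : ∀ p : ℕ, p.Prime → 7 ≤ p → (p % 5 = 2 ∨ p % 5 = 3) →
      Even ((s * t).factorization p) ∧ Even (u.factorization p) := by
    intro p hp hp7 h23
    have h48p : (48 : ℕ).factorization p = 0 := by
      refine Nat.factorization_eq_zero_of_not_dvd fun hd => ?_
      have h1 : p ∣ 2 ^ 4 * 3 := by simpa using hd
      rcases (Nat.Prime.dvd_mul hp).mp h1 with h2 | h2
      · have := Nat.le_of_dvd (by norm_num) (hp.dvd_of_dvd_pow h2)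
        omega
      · have := Nat.le_of_dvd (by norm_num) h2
        omega
    have hfp := hfac p
    rw [h48p, zero_add] at hfp
    by_cases hpu : p ∣ u
    · have h0 : (s * t).factorization p = 0 := by
        refine Nat.factorization_eq_zero_of_not_dvd fun hd => ?_
        rcases (Nat.Prime.dvd_mul hp).mp hd with h2 | h2
        · exact inert p s t u hp hp7 h23 hu h2 hpu
        · exact inert p t s u hp hp7 h23 (by rw [← hu, add_comm]) h2 hpu
      rw [h0, zero_add] at hfp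
      rw [h0, hfp]
      exact ⟨Even.zero, ⟨2 * c.factorization p, by ring⟩⟩
    · have h0 : u.factorization p = 0 := Nat.factorization_eq_zero_of_not_dvd hpu
      rw [h0, add_zero] at hfp
      rw [h0, hfp]
      exact ⟨⟨2 * c.factorization p, by ring⟩, Even.zero⟩
  -- the prime 2
  have h2 : (4 ∣ s * t ∧ u.factorization 2 = 2 ∧ (s * t).factorization 2 =
      2 + 4 * c.factorization 2) ∨ (¬ 4 ∣ s * t ∧ (s * t).factorization 2 = 1 ∧
      u.factorization 2 = 3 + 4 * c.factorization 2) := by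
    have aux : ∀ x y : ℕ, x * y = s * t → x ^ 2 + y ^ 2 = u + 5 → x % 2 = 0 → y % 2 = 1 →
        (4 ∣ s * t ∧ u.factorization 2 = 2) ∨ (¬ 4 ∣ s * t ∧ (s * t).factorization 2 = 1) := by
      intro x y hxy hxu hx hy
      by_cases h4 : 4 ∣ x
      · left
        refine ⟨?_, two_adic x y u h4 hy hxu⟩
        rw [← hxy]
        exact Dvd.dvd.mul_right h4 y
      · right
        obtain ⟨k, rfl⟩ : 2 ∣ x := Nat.dvd_of_mod_eq_zero hx
        have hk : k % 2 = 1 := by omega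
        have hky : (k * y) % 2 = 1 := by rw [Nat.mul_mod, hk, hy]
        have hP : s * t = 2 ^ 1 * (k * y) := by rw [← hxy]; ring
        refine ⟨?_, fac_eq Nat.prime_two hP (by omega)⟩
        rw [hP]
        omega
    have hcase : (s % 2 = 0 ∧ t % 2 = 1) ∨ (t % 2 = 0 ∧ s % 2 = 1) := by omega
    rcases hcase with ⟨e1, e2⟩ | ⟨e1, e2⟩
    · rcases aux s t rfl hu e1 e2 with ⟨g1, g2⟩ | ⟨g1, g2⟩
      · exact Or.inl ⟨g1, g2, by omega⟩
      · exact Or.inr ⟨g1, g2, by omega⟩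
    · rcases aux t s (mul_comm t s) (by rw [← hu, add_comm]) e1 e2 with ⟨g1, g2⟩ | ⟨g1, g2⟩
      · exact Or.inl ⟨g1, g2, by omega⟩
      · exact Or.inr ⟨g1, g2, by omega⟩
  -- the prime 3
  have h3 : (3 ∣ s * t ∧ u.factorization 3 = 0 ∧ (s * t).factorization 3 =
      1 + 4 * c.factorization 3) ∨ (¬ 3 ∣ s * t ∧ (s * t).factorization 3 = 0 ∧
      u.factorization 3 = 1 + 4 * c.factorization 3) := by
    by_cases h3P : 3 ∣ s * t
    · left
      have h3u : ¬ 3 ∣ u := by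
        intro hd
        have e1 : (((s ^ 2 + t ^ 2 : ℕ)) : ZMod 3) = (((u + 5 : ℕ)) : ZMod 3) := by rw [hu]
        push_cast at e1
        rw [(ZMod.natCast_eq_zero_iff u 3).mpr hd] at e1
        have e2 : (s : ZMod 3) * (t : ZMod 3) = 0 := by
          have := (ZMod.natCast_eq_zero_iff (s * t) 3).mpr h3P
          push_cast at this
          exact this
        revert e1 e2
        generalize (s : ZMod 3) = x
        generalize (t : ZMod 3) = y
        revert x y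
        decide
      have h0 : u.factorization 3 = 0 := Nat.factorization_eq_zero_of_not_dvd h3u
      exact ⟨h3P, h0, by omega⟩
    · right
      have h0 : (s * t).factorization 3 = 0 := Nat.factorization_eq_zero_of_not_dvd h3P
      exact ⟨h3P, h0, by omega⟩
  have hpow : ∀ k : ℕ, ((-1 : ZMod 5)) ^ k = 1 ↔ Even k := by
    intro k
    constructor
    · intro hk
      by_contra hne
      rw [Nat.not_even_iff_odd] at hne
      rw [hne.neg_one_pow] at hk
      exact absurd hk (by decide)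
    · intro hk
      exact hk.neg_one_pow
  by_cases h5P : 5 ∣ s * t
  · -- `5 ∣ s t`
    have hL : ¬ (s * t % 5 = 1 ∨ s * t % 5 = 4) := by omega
    have e2 : (s : ZMod 5) * (t : ZMod 5) = 0 := by
      have := (ZMod.natCast_eq_zero_iff (s * t) 5).mpr h5P
      push_cast at this
      exact this
    have e1 : (s : ZMod 5) ^ 2 + (t : ZMod 5) ^ 2 = (u : ZMod 5) := by
      have e1 : (((s ^ 2 + t ^ 2 : ℕ)) : ZMod 5) = (((u + 5 : ℕ)) : ZMod 5) := by rw [hu]
      push_cast at e1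
      rw [e1, show (5 : ZMod 5) = 0 by decide, add_zero]
    have hev : Even (u.factorization 2 + u.factorization 3) := by
      by_cases h5u : 5 ∣ u
      · -- `5 ∣ s` and `5 ∣ t`
        rw [(ZMod.natCast_eq_zero_iff u 5).mpr h5u] at e1
        have e3 : (s : ZMod 5) = 0 ∧ (t : ZMod 5) = 0 := by
          revert e1 e2
          generalize (s : ZMod 5) = x
          generalize (t : ZMod 5) = y
          revert x y
          decide
        obtain ⟨s', hs'⟩ := (ZMod.natCast_eq_zero_iff s 5).mp e3.1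
        obtain ⟨t', ht'⟩ := (ZMod.natCast_eq_zero_iff t 5).mp e3.2
        obtain ⟨w, hw⟩ := h5u
        have e4 : w + 1 = 5 * (s' ^ 2 + t' ^ 2) := by
          rw [hs', ht', hw] at hu
          nlinarith [hu]
        have hw5 : ¬ 5 ∣ w := by omega
        have hw0 : w ≠ 0 := by
          rintro rfl
          omega
        have hfw : ∀ p, p ≠ 5 → u.factorization p = w.factorization p := by
          intro p hp5
          rw [hw, Nat.factorization_mul (by norm_num) hw0, Finsupp.add_apply,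
            Nat.prime_five.factorization, Finsupp.single_apply, if_neg (Ne.symm hp5), zero_add]
        have e5 := sq_mod_five w hw0 hw5 (fun p hp hp7 h23 => by
          rw [← hfw p (by omega)]
          exact (hin p hp hp7 h23).2)
        have e6 : (w : ZMod 5) = -1 := by
          have e7 : (((w + 1 : ℕ)) : ZMod 5) = 0 := by
            rw [e4]
            push_cast
            rw [show (5 : ZMod 5) = 0 by decide, zero_mul]
          push_cast at e7
          exact eq_neg_of_add_eq_zero_left e7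
        rw [e6, ← hfw 2 (by norm_num), ← hfw 3 (by norm_num)] at e5
        exact (hpow _).mp (by rw [← e5]; decide)
      · have e5 := sq_mod_five u hu0 h5u (fun p hp hp7 h23 => (hin p hp hp7 h23).2)
        refine (hpow _).mp ?_
        rw [← e5, ← e1]
        have e6 : (u : ZMod 5) ≠ 0 := fun h0 => h5u ((ZMod.natCast_eq_zero_iff u 5).mp h0)
        rw [← e1] at e6
        revert e2 e6
        generalize (s : ZMod 5) = x
        generalize (t : ZMod 5) = y
        revert x y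
        decide
    constructor
    · intro hh
      exact absurd hh hL
    · intro hx
      exfalso
      obtain ⟨k, hk⟩ := hev
      rcases h2 with ⟨a1, a2, _⟩ | ⟨a1, _, a2⟩ <;> rcases h3 with ⟨b1, b2, _⟩ | ⟨b1, _, b2⟩
      · rcases hx with ⟨_, h⟩ | ⟨_, h⟩
        · exact h a1
        · exact h b1
      · omega
      · omega
      · rcases hx with ⟨h, _⟩ | ⟨h, _⟩
        · exact b1 h
        · exact a1 h
  · -- `5 ∤ s t`
    have e5 := sq_mod_five (s * t) hP0 h5P (fun p hp hp7 h23 => (hin p hp hp7 h23).1)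
    have hL : (s * t % 5 = 1 ∨ s * t % 5 = 4) ↔ (((s * t : ℕ)) : ZMod 5) ^ 2 = 1 := by
      have hcast : (((s * t : ℕ)) : ZMod 5) = ((s * t % 5 : ℕ) : ZMod 5) := by
        rw [ZMod.natCast_mod]
      rw [hcast]
      have hlt : s * t % 5 < 5 := Nat.mod_lt _ (by norm_num)
      generalize s * t % 5 = r at hlt
      interval_cases r <;> decide
    rw [hL, e5, hpow]
    rcases h2 with ⟨a1, _, a2⟩ | ⟨a1, a2, _⟩ <;> rcases h3 with ⟨b1, _, b2⟩ | ⟨b1, b2, _⟩
    · constructor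
      · rintro ⟨k, hk⟩
        omega
      · rintro (⟨_, h⟩ | ⟨_, h⟩)
        · exact absurd a1 h
        · exact absurd b1 h
    · constructor
      · intro _
        exact Or.inr ⟨a1, b1⟩
      · intro _
        exact ⟨1 + 2 * c.factorization 2, by omega⟩
    · constructor
      · intro _
        exact Or.inl ⟨b1, a1⟩
      · intro _
        exact ⟨1 + 2 * c.factorization 3, by omega⟩
    · constructor
      · rintro ⟨k, hk⟩
        omega
      · rintro (⟨h, _⟩ | ⟨h, _⟩)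
        · exact absurd h b1
        · exact absurd h a1

/-- the equation in terms of `s = a - b` and `t = a + b - 3` -/
theorem key (a b : ℕ) :
    48 * ((a.choose 4 : ℤ) - (b.choose 4 : ℤ)) =
      ((a : ℤ) - b) * ((a : ℤ) + b - 3) * (((a : ℤ) - b) ^ 2 + ((a : ℤ) + b - 3) ^ 2 - 5) := by
  have h1 := choose_four a
  have h2 := choose_four b
  linear_combination 2 * h1 - 2 * h2

theorem criterion (a b c : ℕ) (hb : 4 ≤ b) (hab : b < a) (hc : 1 ≤ c)
    (h : (a.choose 4 : ℤ) - (b.choose 4 : ℤ) = (c : ℤ) ^ 4) :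
    ((a - b) * (a + b - 3) % 5 = 1 ∨ (a - b) * (a + b - 3) % 5 = 4) ↔
      Xor (3 ∣ (a - b) * (a + b - 3)) (4 ∣ (a - b) * (a + b - 3)) := by
  have hk := key a b
  rw [h] at hk
  set s := a - b with hs
  set t := a + b - 3 with ht
  have hs' : (s : ℤ) = (a : ℤ) - b := by omega
  have ht' : (t : ℤ) = (a : ℤ) + b - 3 := by omega
  have hsum : 5 ≤ s ^ 2 + t ^ 2 := by
    have : 6 ≤ t := by omega
    nlinarith
  refine core s t (s ^ 2 + t ^ 2 - 5) c (by omega) (by omega) hc (by omega) (by omega) ?_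
  have h1 : ((s ^ 2 + t ^ 2 - 5 : ℕ) : ℤ) = (s : ℤ) ^ 2 + (t : ℤ) ^ 2 - 5 := by
    rw [Nat.cast_sub hsum]
    push_cast
    ring
  have h2 : ((s * t * (s ^ 2 + t ^ 2 - 5) : ℕ) : ℤ) = ((48 * c ^ 4 : ℕ) : ℤ) := by
    rw [Nat.cast_mul, h1]
    push_cast
    rw [hs', ht']
    exact hk.symm
  exact_mod_cast h2

/-- a root of `390625 X^3 - 4 X - 48` modulo every power of 5 -/
theorem loc_five (f : ℕ) : ∃ k : ℕ, (5 : ℤ) ^ f ∣ 390625 * (k : ℤ) ^ 3 - 4 * k - 48 := by
  induction f with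
  | zero => exact ⟨0, by simp⟩
  | succ f ih =>
    obtain ⟨k, q, hq⟩ := ih
    have hj0 : 0 ≤ (4 * q) % 5 := Int.emod_nonneg _ (by norm_num)
    obtain ⟨j, hj⟩ : ∃ j : ℕ, (j : ℤ) = 4 * q - 5 * ((4 * q) / 5) := by
      refine ⟨((4 * q) % 5).toNat, ?_⟩
      rw [Int.toNat_of_nonneg hj0]
      omega
    refine ⟨k + 5 ^ f * j, -3 * q + 4 * ((4 * q) / 5) + 78125 * (3 * (k : ℤ) ^ 2 * j +
      3 * k * 5 ^ f * j ^ 2 + (5 ^ f) ^ 2 * j ^ 3), ?_⟩
    push_cast
    linear_combination hq - 4 * 5 ^ f * hj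

theorem crt (A B C x y z : ℕ) (h1 : Nat.Coprime A B) (h2 : Nat.Coprime A C)
    (h3 : Nat.Coprime B C) : ∃ k : ℕ, k ≡ x [MOD A] ∧ k ≡ y [MOD B] ∧ k ≡ z [MOD C] := by
  obtain ⟨k1, hk1, hk2⟩ := Nat.chineseRemainder h1 x y
  obtain ⟨k, hk3, hk4⟩ := Nat.chineseRemainder (Nat.Coprime.mul_left h2 h3) k1 z
  exact ⟨k, (hk3.of_dvd (Dvd.intro _ rfl)).trans hk1,
    (hk3.of_dvd (Dvd.intro_left _ rfl)).trans hk2, hk4⟩

/-- the equation is solvable modulo everything with `a - b ≡ 30 (mod 60)` -/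
theorem local_solution (m : ℕ) (hm : 1 ≤ m) : ∃ a b c : ℕ, 4 ≤ b ∧ b < a ∧ 1 ≤ c ∧
    (a - b) % 60 = 30 ∧ Nat.gcd c m ∣ 5 ∧
    (a.choose 4 : ℤ) - (b.choose 4 : ℤ) ≡ (c : ℤ) ^ 4 [ZMOD m] := by
  obtain ⟨e, M₁, hM₁, hM⟩ := Nat.exists_eq_pow_mul_and_not_dvd (n := 240 * m) (by omega) 3
    (by norm_num)
  obtain ⟨f, M₂, hM₂, hM1⟩ := Nat.exists_eq_pow_mul_and_not_dvd (n := M₁)
    (by rintro rfl; omega) 5 (by norm_num)
  have hM₂3 : ¬ 3 ∣ M₂ := fun hd => hM₁ (by rw [hM1]; exact Dvd.dvd.mul_left hd _)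
  have h3 : Nat.Coprime 3 M₂ := (Nat.Prime.coprime_iff_not_dvd Nat.prime_three).mpr hM₂3
  have h5 : Nat.Coprime 5 M₂ := (Nat.Prime.coprime_iff_not_dvd Nat.prime_five).mpr hM₂
  have c1 : Nat.Coprime M₂ (3 ^ e) := (Nat.Coprime.pow_left e h3).symm
  have c2 : Nat.Coprime M₂ (5 ^ f) := (Nat.Coprime.pow_left f h5).symm
  have c3 : Nat.Coprime (3 ^ e) (5 ^ f) := Nat.Coprime.pow _ _ (by norm_num)
  have hMM : 240 * m = M₂ * 3 ^ e * 5 ^ f := by rw [hM, hM1]; ring
  have he : 1 ≤ e := by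
    by_contra h0
    have : e = 0 := by omega
    subst this
    rw [pow_zero, one_mul] at hM
    exact hM₁ (by rw [← hM]; exact ⟨80 * m, by ring⟩)
  have hf : 1 ≤ f := by
    by_contra h0
    have : f = 0 := by omega
    subst this
    rw [pow_zero, one_mul] at hM1
    have h51 : 5 ∣ 3 ^ e * M₂ := by rw [← hM1, ← hM]; exact ⟨48 * m, by ring⟩
    have h52 : Nat.Coprime 5 (3 ^ e * M₂) :=
      Nat.Coprime.mul_right (Nat.Coprime.pow_right e (by norm_num)) h5
    have := Nat.Coprime.eq_one_of_dvd h52 h51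
    omega
  have h16 : 16 ∣ M₂ := by
    have h161 : 16 ∣ M₂ * (3 ^ e * 5 ^ f) := by
      rw [← mul_assoc, ← hMM]
      exact ⟨15 * m, by ring⟩
    refine Nat.Coprime.dvd_of_dvd_mul_right ?_ h161
    exact Nat.Coprime.mul_right (Nat.Coprime.pow_right e (by norm_num))
      (Nat.Coprime.pow_right f (by norm_num))
  obtain ⟨k, hk⟩ := loc_five f
  obtain ⟨s, s1, s2, s3⟩ := crt M₂ (3 ^ e) (5 ^ f) 2 3 (625 * k) c1 c2 c3
  obtain ⟨t₀, t1, t2, t3⟩ := crt M₂ (3 ^ e) (5 ^ f) 3 2 1 c1 c2 c3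
  obtain ⟨c, d1, d2, d3⟩ := crt M₂ (3 ^ e) (5 ^ f) 1 1 5 c1 c2 c3
  set t := t₀ + 240 * m * (s + 5) with ht
  have t1' : t ≡ 3 [MOD M₂] := by
    have h0 : 240 * m * (s + 5) ≡ 0 [MOD M₂] :=
      (Nat.modEq_zero_iff_dvd).mpr (by rw [hMM]; exact ⟨3 ^ e * 5 ^ f * (s + 5), by ring⟩)
    exact (Nat.ModEq.add t1 h0)
  have t2' : t ≡ 2 [MOD 3 ^ e] := by
    have h0 : 240 * m * (s + 5) ≡ 0 [MOD 3 ^ e] :=
      (Nat.modEq_zero_iff_dvd).mpr (by rw [hMM]; exact ⟨M₂ * 5 ^ f * (s + 5), by ring⟩)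
    exact (Nat.ModEq.add t2 h0)
  have t3' : t ≡ 1 [MOD 5 ^ f] := by
    have h0 : 240 * m * (s + 5) ≡ 0 [MOD 5 ^ f] :=
      (Nat.modEq_zero_iff_dvd).mpr (by rw [hMM]; exact ⟨M₂ * 3 ^ e * (s + 5), by ring⟩)
    exact (Nat.ModEq.add t3 h0)
  have hs4 : s % 4 = 2 := by
    have := s1.of_dvd (dvd_trans (by norm_num : (4 : ℕ) ∣ 16) h16)
    unfold Nat.ModEq at this
    omega
  have ht4 : t % 4 = 3 := by
    have := t1'.of_dvd (dvd_trans (by norm_num : (4 : ℕ) ∣ 16) h16)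
    unfold Nat.ModEq at this
    omega
  have hc4 : c % 4 = 1 := by
    have := d1.of_dvd (dvd_trans (by norm_num : (4 : ℕ) ∣ 16) h16)
    unfold Nat.ModEq at this
    omega
  have hs3 : s % 3 = 0 := by
    have := s2.of_dvd (dvd_pow_self 3 (by omega))
    unfold Nat.ModEq at this
    omega
  have hs5 : s % 5 = 0 := by
    have := s3.of_dvd (dvd_pow_self 5 (by omega))
    unfold Nat.ModEq at this
    omega
  have hbig : s + 5 ≤ t := by
    have h1 : 1 * (s + 5) ≤ 240 * m * (s + 5) := Nat.mul_le_mul_right _ (by omega)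
    omega
  -- the congruence
  have hcong : ((240 * m : ℕ) : ℤ) ∣
      (s : ℤ) * t * ((s : ℤ) ^ 2 + (t : ℤ) ^ 2 - 5) - 48 * (c : ℤ) ^ 4 := by
    have g1 : ((M₂ : ℕ) : ℤ) ∣
        (s : ℤ) * t * ((s : ℤ) ^ 2 + (t : ℤ) ^ 2 - 5) - 48 * (c : ℤ) ^ 4 := by
      have a1 : (s : ℤ) ≡ 2 [ZMOD (M₂ : ℕ)] := (Int.natCast_modEq_iff).mpr s1
      have a2 : (t : ℤ) ≡ 3 [ZMOD (M₂ : ℕ)] := (Int.natCast_modEq_iff).mpr t1'
      have a3 : (c : ℤ) ≡ 1 [ZMOD (M₂ : ℕ)] := (Int.natCast_modEq_iff).mpr d1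
      have a4 := ((a1.mul a2).mul ((((a1.pow 2).add (a2.pow 2))).sub_right 5)).sub
        ((a3.pow 4).mul_left 48)
      have a5 := a4.symm.dvd
      norm_num at a5
      exact a5
    have g2 : (((3 ^ e : ℕ)) : ℤ) ∣
        (s : ℤ) * t * ((s : ℤ) ^ 2 + (t : ℤ) ^ 2 - 5) - 48 * (c : ℤ) ^ 4 := by
      have a1 : (s : ℤ) ≡ 3 [ZMOD ((3 ^ e : ℕ) : ℤ)] := (Int.natCast_modEq_iff).mpr s2
      have a2 : (t : ℤ) ≡ 2 [ZMOD ((3 ^ e : ℕ) : ℤ)] := (Int.natCast_modEq_iff).mpr t2'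
      have a3 : (c : ℤ) ≡ 1 [ZMOD ((3 ^ e : ℕ) : ℤ)] := (Int.natCast_modEq_iff).mpr d2
      have a4 := ((a1.mul a2).mul ((((a1.pow 2).add (a2.pow 2))).sub_right 5)).sub
        ((a3.pow 4).mul_left 48)
      have a5 := a4.symm.dvd
      norm_num at a5
      simpa using a5
    have g3 : (((5 ^ f : ℕ)) : ℤ) ∣
        (s : ℤ) * t * ((s : ℤ) ^ 2 + (t : ℤ) ^ 2 - 5) - 48 * (c : ℤ) ^ 4 := by
      have a1 : (s : ℤ) ≡ ((625 * k : ℕ) : ℤ) [ZMOD ((5 ^ f : ℕ) : ℤ)] :=
        (Int.natCast_modEq_iff).mpr s3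
      have a2 : (t : ℤ) ≡ ((1 : ℕ) : ℤ) [ZMOD ((5 ^ f : ℕ) : ℤ)] :=
        (Int.natCast_modEq_iff).mpr t3'
      have a3 : (c : ℤ) ≡ ((5 : ℕ) : ℤ) [ZMOD ((5 ^ f : ℕ) : ℤ)] :=
        (Int.natCast_modEq_iff).mpr d3
      have a4 := ((a1.mul a2).mul ((((a1.pow 2).add (a2.pow 2))).sub_right 5)).sub
        ((a3.pow 4).mul_left 48)
      have a5 := a4.symm.dvd
      have a6 : ((625 * k : ℕ) : ℤ) * ((1 : ℕ) : ℤ) * (((625 * k : ℕ) : ℤ) ^ 2 +
          ((1 : ℕ) : ℤ) ^ 2 - 5) - 48 * ((5 : ℕ) : ℤ) ^ 4 =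
          625 * (390625 * (k : ℤ) ^ 3 - 4 * k - 48) := by
        push_cast
        ring
      rw [a6] at a5
      have a7 : (((5 ^ f : ℕ)) : ℤ) ∣ 625 * (390625 * (k : ℤ) ^ 3 - 4 * k - 48) := by
        push_cast
        exact Dvd.dvd.mul_left hk 625
      exact (dvd_sub_left a7).mp a5
    have i1 : IsCoprime ((M₂ : ℕ) : ℤ) (((3 ^ e : ℕ)) : ℤ) := Nat.isCoprime_iff_coprime.mpr c1
    have i2 : IsCoprime (((M₂ * 3 ^ e : ℕ)) : ℤ) (((5 ^ f : ℕ)) : ℤ) :=
      Nat.isCoprime_iff_coprime.mpr (Nat.Coprime.mul_left c2 c3)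
    rw [hMM, Nat.cast_mul]
    refine i2.mul_dvd ?_ g3
    rw [Nat.cast_mul]
    exact i1.mul_dvd g1 g2
  -- back to `a` and `b`
  obtain ⟨a, ha⟩ : ∃ a, s + t + 3 = 2 * a := ⟨(s + t + 3) / 2, by omega⟩
  obtain ⟨b, hb⟩ : ∃ b, t + 3 = 2 * b + s := ⟨(t + 3 - s) / 2, by omega⟩
  refine ⟨a, b, c, by omega, by omega, by omega, by omega, ?_, ?_⟩
  · -- the greatest common divisor
    have q1 : Nat.gcd c M₂ = 1 := by rw [d1.gcd_eq]; simp
    have q2 : Nat.gcd c (3 ^ e) = 1 := by rw [d2.gcd_eq]; simp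
    have q3 : Nat.gcd c (5 ^ f) ∣ 5 := by rw [d3.gcd_eq]; exact Nat.gcd_dvd_left _ _
    have q4 : Nat.gcd c m ∣ Nat.gcd c (M₂ * 3 ^ e * 5 ^ f) :=
      Nat.gcd_dvd_gcd_of_dvd_right c (by rw [← hMM]; exact Dvd.intro_left _ rfl)
    refine q4.trans ((Nat.gcd_mul_right_dvd_mul_gcd c (M₂ * 3 ^ e) (5 ^ f)).trans ?_)
    have q5 : Nat.gcd c (M₂ * 3 ^ e) = 1 := Nat.Coprime.mul_right q1 q2
    rw [q5, one_mul]
    exact q3
  · have hk2 := key a b
    have e1 : (a : ℤ) - b = s := by omega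
    have e2 : (a : ℤ) + b - 3 = t := by omega
    rw [e1, e2] at hk2
    have e3 : (48 * (m : ℤ)) ∣ 48 * (((a.choose 4 : ℤ) - (b.choose 4 : ℤ)) - (c : ℤ) ^ 4) := by
      rw [mul_sub, hk2]
      refine dvd_trans ?_ hcong
      push_cast
      exact ⟨5, by ring⟩
    have e4 : (m : ℤ) ∣ ((a.choose 4 : ℤ) - (b.choose 4 : ℤ)) - (c : ℤ) ^ 4 :=
      (mul_dvd_mul_iff_left (by norm_num : (48 : ℤ) ≠ 0)).mp e3
    exact (Int.modEq_iff_dvd.mpr e4).symm

/-- For a solution of `C(a,4) - C(b,4) = c^4` the number `P = (a-b)(a+b-3)` is `±1` modulo 5 if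
and only if exactly one of `3 ∣ P`, `4 ∣ P` holds; in particular `a - b ≡ 30 (mod 60)` is
impossible.  This is not a consequence of congruences: with `a - b ≡ 30 (mod 60)` the equation
is solvable modulo every `m`, with `gcd(c, m) ∣ 5`. -/
theorem result :
    (∀ a b c : ℕ, 4 ≤ b → b < a → 1 ≤ c →
      (a.choose 4 : ℤ) - (b.choose 4 : ℤ) = (c : ℤ) ^ 4 →
      (((a - b) * (a + b - 3) % 5 = 1 ∨ (a - b) * (a + b - 3) % 5 = 4) ↔
        Xor (3 ∣ (a - b) * (a + b - 3)) (4 ∣ (a - b) * (a + b - 3))) ∧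
      (a - b) % 60 ≠ 30 ∧ (a + b - 3) % 60 ≠ 30) ∧
    (∀ m : ℕ, 1 ≤ m → ∃ a b c : ℕ, 4 ≤ b ∧ b < a ∧ 1 ≤ c ∧ (a - b) % 60 = 30 ∧
      Nat.gcd c m ∣ 5 ∧ (a.choose 4 : ℤ) - (b.choose 4 : ℤ) ≡ (c : ℤ) ^ 4 [ZMOD m]) := by
  refine ⟨fun a b c hb hab hc h => ?_, local_solution⟩
  have h1 := criterion a b c hb hab hc h
  have hpar : ((a - b) + (a + b - 3)) % 2 = 1 := by omega
  refine ⟨h1, ?_⟩
  have aux : ∀ x y : ℕ, (x + y) % 2 = 1 → x * y = (a - b) * (a + b - 3) → x % 60 ≠ 30 := by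
    intro x y hxy hP hx
    rw [← hP] at h1
    have h5 : 5 ∣ x * y := Dvd.dvd.mul_right (by omega) y
    have h3 : 3 ∣ x * y := Dvd.dvd.mul_right (by omega) y
    have h4 : ¬ 4 ∣ x * y := by
      intro h4
      have hy : Nat.Coprime 4 y := by
        have : Nat.Coprime 2 y := (Nat.Prime.coprime_iff_not_dvd Nat.prime_two).mpr (by omega)
        exact Nat.Coprime.pow_left 2 this
      have := hy.dvd_of_dvd_mul_right h4
      omega
    have := h1.mpr (Or.inl ⟨h3, h4⟩)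
    omega
  exact ⟨aux _ _ hpar rfl, aux _ _ (by omega) (mul_comm _ _)⟩

end Pool.Agent.Results.MP_76dfaf_nt.Reciprocity
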